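import Pool.Agent.Lib.MP_5bcdfb_an.ND.Spec

/-! Module ACN (helper60): the increment measure vanishes on the null sets of `σ`. -/

set_option autoImplicit false

namespace Pool.Agent.Lib.MP5bcdfb.ND

open MeasureTheory Set Filter Topology
open Pool.Agent.Lib.MP5bcdfb.TS Pool.Agent.Lib.MP5bcdfb.VX

noncomputable section

namespace ACNM

variable {K : Type} [MetricSpace K] [CompactSpace K] [MeasurableSpace K] [BorelSpace K]

/-- functions `0 ≤ P ≤ m` vanishing off `U` are near `0` -/
theorem nk_le (σ : Measure K) [IsFiniteMeasure σ] (p : ℕ) (hp : 1 ≤ p) {m : ℝ} {U : Set K}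
    (hU : IsOpen U) (P : C(K, ℝ)) (h0 : ∀ t, 0 ≤ P t) (h1 : ∀ t, P t ≤ m) (h2 : ∀ t, t ∉ U → P t = 0) :
    nk σ p P 0 ≤ m ^ p * (σ U).toReal := by
  unfold nk
  have h3 : ∫ t, |P t ^ p - (0 : C(K, ℝ)) t ^ p| ∂σ ≤ ∫ t, U.indicator (fun _ => m ^ p) t ∂σ := by
    refine integral_mono_of_nonneg (Eventually.of_forall fun t => abs_nonneg _) ?_
      (Eventually.of_forall fun t => ?_)
    · exact (integrable_const _).indicator hU.measurableSet
    · have hz : ((0 : C(K, ℝ)) t : ℝ) ^ p = 0 := by
        simp [show p ≠ 0 by omega]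
      simp only
      rw [hz, sub_zero, abs_of_nonneg (pow_nonneg (h0 t) p)]
      by_cases ht : t ∈ U
      · rw [indicator_of_mem ht]
        exact pow_le_pow_left₀ (h0 t) (h1 t) p
      · rw [indicator_of_notMem ht, h2 t ht, zero_pow (by omega)]
  refine h3.trans (le_of_eq ?_)
  rw [integral_indicator_const _ hU.measurableSet]
  simp only [Measure.real, smul_eq_mul]
  ring

end ACNM

open ACNM in
theorem specACN (hLOC : TS.SpecLOC) : SpecACN := by
  intro K _ _ _ _ σ _ p W m M hp hW hm hM hN ν hν G hG hσ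
  haveI := hν.fin
  have key : ∀ ε : ℝ, 0 < ε → (ν G).toReal ≤ 2 * ε := by
    intro ε hε
    obtain ⟨δ, hδ, hnear⟩ := hN m ε hm hε
    have hmp : 0 < m ^ p := pow_pos hm p
    have hlt : σ G < ENNReal.ofReal (δ / m ^ p) := by
      rw [hσ]
      exact ENNReal.ofReal_pos.2 (div_pos hδ hmp)
    obtain ⟨U, hGU, hU, hσU⟩ := G.exists_isOpen_lt_of_lt _ hlt
    have hσU' : m ^ p * (σ U).toReal < δ := by
      have h1 : (σ U).toReal < δ / m ^ p := by
        have h2 := (ENNReal.toReal_lt_toReal (measure_ne_top σ U) ENNReal.ofReal_ne_top).2 hσU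
        rwa [ENNReal.toReal_ofReal (div_pos hδ hmp).le] at h2
      rw [lt_div_iff₀ hmp] at h1
      linarith
    have h1 : (ν G).toReal ≤ (ν U).toReal :=
      ENNReal.toReal_mono (measure_ne_top ν U) (measure_mono hGU)
    refine h1.trans ?_
    rw [hν.eq U hU]
    unfold ow
    refine csSup_le ?_ ?_
    · refine ⟨W 0 - W 0, 0, 0, ⟨fun t => le_rfl, fun t => le_rfl, fun t => ?_, ?_⟩, rfl⟩
      · simpa using hm.le
      · simp
    · rintro x ⟨a, b, hab, rfl⟩
      set S : Set K := tsupport (fun t => b t - a t) with hS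
      have hSU : S ⊆ U := hab.supp
      have hdis : Disjoint Uᶜ S := by
        rw [Set.disjoint_left]
        intro t ht hts
        exact ht (hSU hts)
      obtain ⟨φ, hφ0, hφ1, hφ⟩ := exists_continuous_zero_one_of_isClosed hU.isClosed_compl
        (isClosed_tsupport _) hdis
      have hz : ∀ t, t ∉ S → b t - a t = 0 := by
        intro t ht
        exact image_eq_zero_of_notMem_tsupport (f := fun t => b t - a t) ht
      have ha0 : ∀ t, 0 ≤ a t := fun t => by simpa using hab.low t
      have hbm : ∀ t, b t ≤ m := fun t => by simpa using hab.upp t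
      have hle : ∀ t, a t ≤ b t := hab.le
      have hP0 : ∀ t, 0 ≤ (φ * a) t := fun t => mul_nonneg (hφ t).1 (ha0 t)
      have hPa : ∀ t, (φ * a) t ≤ a t := fun t => by
        have h3 := mul_le_mul_of_nonneg_right (hφ t).2 (ha0 t)
        simpa using h3
      have hQ : ∀ t, (φ * a + (b - a)) t = (φ * a) t + (b t - a t) := fun t => rfl
      have hPQ : ∀ t, (φ * a) t ≤ (φ * a + (b - a)) t := fun t => by
        rw [hQ]
        linarith [hle t]
      have hQm : ∀ t, (φ * a + (b - a)) t ≤ m := fun t => by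
        rw [hQ]
        linarith [hPa t, hbm t]
      have hPm : ∀ t, (φ * a) t ≤ m := fun t => (hPQ t).trans (hQm t)
      have hQ0 : ∀ t, 0 ≤ (φ * a + (b - a)) t := fun t => (hP0 t).trans (hPQ t)
      have hPU : ∀ t, t ∉ U → (φ * a) t = 0 := by
        intro t ht
        have h3 : φ t = 0 := hφ0 ht
        change φ t * a t = 0
        rw [h3, zero_mul]
      have hQU : ∀ t, t ∉ U → (φ * a + (b - a)) t = 0 := by
        intro t ht
        rw [hQ, hPU t ht, hz t (fun h => ht (hSU h)), add_zero]
      have hloc := hLOC K W hW a b (φ * a) (φ * a + (b - a)) (fun t => ha0 t) (fun t => hP0 t)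
        (fun t => hle t) (fun t => hPQ t) (by
          intro t
          by_cases ht : t ∈ S
          · left
            have h3 : φ t = 1 := hφ1 ht
            have h4 : (φ * a) t = a t := by
              change φ t * a t = a t
              rw [h3, one_mul]
            refine ⟨h4.symm, ?_⟩
            rw [hQ, h4]
            ring
          · right
            refine ⟨by linarith [hz t ht], ?_⟩
            rw [hQ, hz t ht, add_zero])
      rw [hloc]
      have hPn : ‖φ * a‖ ≤ m := by
        refine (ContinuousMap.norm_le _ hm.le).2 fun t => ?_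
        rw [Real.norm_eq_abs, abs_of_nonneg (hP0 t)]
        exact hPm t
      have hQn : ‖φ * a + (b - a)‖ ≤ m := by
        refine (ContinuousMap.norm_le _ hm.le).2 fun t => ?_
        rw [Real.norm_eq_abs, abs_of_nonneg (hQ0 t)]
        exact hQm t
      have h5 := hnear (φ * a) (fun t => hP0 t) hPn
        (lt_of_le_of_lt (nk_le σ p hp hU _ hP0 hPm hPU) hσU')
      have h6 := hnear (φ * a + (b - a)) (fun t => hQ0 t) hQn
        (lt_of_le_of_lt (nk_le σ p hp hU _ hQ0 hQm hQU) hσU')
      have h7 := abs_le.1 h5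
      have h8 := abs_le.1 h6
      linarith [h7.1, h8.2]
  have h0 : (ν G).toReal ≤ 0 := by
    refine le_of_forall_pos_le_add fun ε hε => ?_
    have := key (ε / 2) (half_pos hε)
    linarith
  have h1 : (ν G).toReal = 0 := le_antisymm h0 ENNReal.toReal_nonneg
  rcases (ENNReal.toReal_eq_zero_iff _).1 h1 with h | h
  · exact h
  · exact absurd h (measure_ne_top ν G)

end

end Pool.Agent.Lib.MP5bcdfb.ND
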