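import Pool.Agent.Lib.MP_5bcdfb_an.ND.Spec

/-!
# MP_5bcdfb, module NAC: absolute continuity in the form with `ε` and `δ`
-/

set_option autoImplicit false

namespace Pool.Agent.Lib.MP5bcdfb.ND

open MeasureTheory Set Filter Topology
open Pool.Agent.Lib.MP5bcdfb.TS Pool.Agent.Lib.MP5bcdfb.VX

theorem specNAC : SpecNAC := by
  intro K _ _ _ _ σ ν _ _ hG ε hε
  have hac : ν ≪ σ := by
    refine Measure.AbsolutelyContinuous.mk fun s hs h0 => ?_
    rw [hs.measure_eq_iSup_isCompact_of_ne_top (measure_ne_top ν s)]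
    simp only [ENNReal.iSup_eq_zero]
    intro G hGs hGc
    exact hG G hGc (measure_mono_null hGs h0)
  have hfin : ∫⁻ x, ν.rnDeriv σ x ∂σ ≠ ⊤ := (Measure.lintegral_rnDeriv_lt_top ν σ).ne
  obtain ⟨δ₀, hδ₀, h1⟩ := exists_pos_setLIntegral_lt_of_measure_lt hfin
    (ENNReal.ofReal_pos.2 hε).ne'
  obtain ⟨δ₁, hδ1, hδ2⟩ := exists_between hδ₀
  have hδ3 : δ₁ ≠ ⊤ := ne_top_of_lt hδ2
  refine ⟨δ₁.toReal, ENNReal.toReal_pos hδ1.ne' hδ3, fun B _ hB => ?_⟩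
  have h2 : σ B < δ₀ := by
    refine lt_of_le_of_lt ?_ hδ2
    exact (ENNReal.toReal_le_toReal (measure_ne_top σ B) hδ3).1 hB
  have h3 := h1 B h2
  rw [Measure.setLIntegral_rnDeriv hac] at h3
  exact ENNReal.toReal_le_of_le_ofReal hε.le h3.le

end Pool.Agent.Lib.MP5bcdfb.ND
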