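import Pool.Agent.Lib.MP_5bcdfb_an.ND.Spec

set_option autoImplicit false

namespace Pool.Agent.Lib.MP5bcdfb.ND

open MeasureTheory Set Filter Topology
open Pool.Agent.Lib.MP5bcdfb.TS Pool.Agent.Lib.MP5bcdfb.VX

noncomputable section

namespace NCSM

theorem abs_le_norm {K : Type} [TopologicalSpace K] [CompactSpace K] (f : C(K, ℝ)) (t : K) :
    |f t| ≤ ‖f‖ := by
  have := f.norm_coe_le_norm t
  rwa [Real.norm_eq_abs] at this

theorem nk_le {K : Type} [TopologicalSpace K] [CompactSpace K] [MeasurableSpace K]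
    (σ : Measure K) [IsFiniteMeasure σ] (p : ℕ) (f g : C(K, ℝ)) {r : ℝ} (hr : ‖g - f‖ ≤ r)
    (hr1 : r ≤ 1) :
    nk σ p g f ≤ r * (p * (‖f‖ + 1) ^ (p - 1)) * σ.real univ := by
  have hb : ∀ t : K, |g t ^ p - f t ^ p| ≤ r * (p * (‖f‖ + 1) ^ (p - 1)) := by
    intro t
    have h1 := abs_pow_sub_pow_le (g t) (f t) p
    have h2 : |g t - f t| ≤ r := by
      have := abs_le_norm (g - f) t
      rw [ContinuousMap.sub_apply] at this
      exact this.trans hr
    have h3 : |f t| ≤ ‖f‖ := abs_le_norm f t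
    have h4 : |g t| ≤ ‖f‖ + 1 := by
      have h5 : |g t| ≤ |g t - f t| + |f t| := by
        have := abs_add_le (g t - f t) (f t)
        rwa [sub_add_cancel] at this
      linarith
    have h6 : max |g t| |f t| ≤ ‖f‖ + 1 := max_le h4 (by linarith)
    have h7 : max |g t| |f t| ^ (p - 1) ≤ (‖f‖ + 1) ^ (p - 1) :=
      pow_le_pow_left₀ (le_max_of_le_left (abs_nonneg _)) h6 _
    have hr0 : 0 ≤ r := (norm_nonneg _).trans hr
    calc |g t ^ p - f t ^ p| ≤ |g t - f t| * p * max |g t| |f t| ^ (p - 1) := h1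
      _ ≤ r * p * (‖f‖ + 1) ^ (p - 1) := by
        apply mul_le_mul _ h7 (pow_nonneg (le_max_of_le_left (abs_nonneg _)) _) (by positivity)
        exact mul_le_mul_of_nonneg_right h2 (by positivity)
      _ = r * (p * (‖f‖ + 1) ^ (p - 1)) := by ring
  have h8 : ‖∫ t, |g t ^ p - f t ^ p| ∂σ‖ ≤ r * (p * (‖f‖ + 1) ^ (p - 1)) * σ.real univ :=
    norm_integral_le_of_norm_le_const (Eventually.of_forall fun t => by
      rw [Real.norm_eq_abs, abs_abs]; exact hb t)
  exact (le_abs_self _).trans (by rwa [Real.norm_eq_abs] at h8)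

end NCSM

open NCSM in
theorem specNCS : SpecNCS := by
  intro K _ _ _ _ σ _ p V _ hV
  constructor
  · intro f hf ε hε
    obtain ⟨δ, hδ, h⟩ := hV f hf ε hε
    set A : ℝ := (p * (‖f‖ + 1) ^ (p - 1)) * σ.real univ with hA
    have hA0 : 0 ≤ A := by positivity
    refine ⟨min 1 (δ / (A + 1)), lt_min one_pos (by positivity), ?_⟩
    intro g hg hgf
    apply h g hg
    have h1 := nk_le σ p f g hgf.le (min_le_left _ _)
    have h2 : min 1 (δ / (A + 1)) * A ≤ δ / (A + 1) * A :=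
      mul_le_mul_of_nonneg_right (min_le_right _ _) hA0
    have h3 : δ / (A + 1) * A < δ := by
      rw [div_mul_eq_mul_div, div_lt_iff₀ (by positivity)]
      nlinarith
    calc nk σ p g f ≤ min 1 (δ / (A + 1)) * A := by rw [hA, ← mul_assoc]; exact h1
      _ < δ := lt_of_le_of_lt h2 h3
  · intro m ε _ hε
    obtain ⟨δ, hδ, h⟩ := hV 0 le_rfl ε hε
    exact ⟨δ, hδ, fun f hf _ hk => (h f hf hk).le⟩

end

end Pool.Agent.Lib.MP5bcdfb.ND
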