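import Pool.Agent.Lib.MP_5bcdfb_an.ND.Spec

/-!
# MP_5bcdfb : module NEC of ND, the example is an `nk`-continuous valuation
-/

set_option autoImplicit false

namespace Pool.Agent.Lib.MP5bcdfb.ND

open MeasureTheory Set Filter Topology
open Pool.Agent.Lib.MP5bcdfb.TS Pool.Agent.Lib.MP5bcdfb.VX

namespace NECM

theorem integ {K : Type} [MetricSpace K] [CompactSpace K] [MeasurableSpace K] [BorelSpace K]
    (σ : Measure K) [IsFiniteMeasure σ] {f : K → ℝ} (hf : Continuous f) : Integrable f σ :=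
  hf.integrable_of_hasCompactSupport (HasCompactSupport.of_compactSpace f)

/-- the difference of the integrands -/
theorem point (p : ℕ) (hp : 1 ≤ p) (x y B θ : ℝ) (hx : 0 ≤ x) (hy : 0 ≤ y) (hyB : y ≤ B)
    (hθ : 0 < θ) :
    |x ^ p * Real.cos (Real.pi * x) - y ^ p * Real.cos (Real.pi * y)| ≤
      |x ^ p - y ^ p| + B ^ p * Real.pi * (θ + |x ^ p - y ^ p| / θ ^ (p - 1)) := by
  have hpi := Real.pi_pos
  have h1 : |x - y| ^ p ≤ |x ^ p - y ^ p| := by
    rcases le_total x y with h | h
    · rw [abs_sub_comm, abs_of_nonneg (sub_nonneg.2 h), abs_sub_comm (x ^ p),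
        abs_of_nonneg (sub_nonneg.2 (pow_le_pow_left₀ hx h p))]
      have := pow_add_pow_le (n := p) (sub_nonneg.2 h) hx (by omega)
      rw [sub_add_cancel] at this
      linarith
    · rw [abs_of_nonneg (sub_nonneg.2 h),
        abs_of_nonneg (sub_nonneg.2 (pow_le_pow_left₀ hy h p))]
      have := pow_add_pow_le (n := p) (sub_nonneg.2 h) hy (by omega)
      rw [sub_add_cancel] at this
      linarith
  have h2 : |x - y| ≤ θ + |x ^ p - y ^ p| / θ ^ (p - 1) := by
    rcases le_or_gt |x - y| θ with h | h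
    · have : 0 ≤ |x ^ p - y ^ p| / θ ^ (p - 1) := by positivity
      linarith
    · have h3 : |x - y| * θ ^ (p - 1) ≤ |x - y| ^ p := by
        obtain ⟨k, rfl⟩ : ∃ k, p = k + 1 := ⟨p - 1, by omega⟩
        rw [Nat.add_sub_cancel, pow_succ, mul_comm]
        exact mul_le_mul_of_nonneg_right (pow_le_pow_left₀ hθ.le h.le k) (abs_nonneg _)
      have h4 : |x - y| ≤ |x ^ p - y ^ p| / θ ^ (p - 1) := by
        rw [le_div_iff₀ (by positivity)]
        exact h3.trans h1
      linarith
  have h3 : x ^ p * Real.cos (Real.pi * x) - y ^ p * Real.cos (Real.pi * y) =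
      (x ^ p - y ^ p) * Real.cos (Real.pi * x) +
        y ^ p * (Real.cos (Real.pi * x) - Real.cos (Real.pi * y)) := by ring
  have hB : y ^ p ≤ B ^ p := pow_le_pow_left₀ hy hyB p
  have h4 : |Real.cos (Real.pi * x) - Real.cos (Real.pi * y)| ≤ Real.pi * |x - y| := by
    refine (Real.abs_cos_sub_cos_le _ _).trans ?_
    rw [← mul_sub, abs_mul, abs_of_pos hpi]
  rw [h3]
  calc |(x ^ p - y ^ p) * Real.cos (Real.pi * x) +
        y ^ p * (Real.cos (Real.pi * x) - Real.cos (Real.pi * y))|
      ≤ |(x ^ p - y ^ p) * Real.cos (Real.pi * x)| +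
        |y ^ p * (Real.cos (Real.pi * x) - Real.cos (Real.pi * y))| := abs_add_le _ _
    _ ≤ |x ^ p - y ^ p| + B ^ p * (Real.pi * |x - y|) := by
        apply add_le_add
        · rw [abs_mul]
          exact mul_le_of_le_one_right (abs_nonneg _) (Real.abs_cos_le_one _)
        · rw [abs_mul, abs_of_nonneg (pow_nonneg hy p)]
          exact mul_le_mul hB h4 (abs_nonneg _) ((pow_nonneg hy p).trans hB)
    _ ≤ |x ^ p - y ^ p| + B ^ p * Real.pi * (θ + |x ^ p - y ^ p| / θ ^ (p - 1)) := by
        rw [mul_assoc]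
        have h5 : 0 ≤ B ^ p := (pow_nonneg hy p).trans hB
        have h6 : Real.pi * |x - y| ≤ Real.pi * (θ + |x ^ p - y ^ p| / θ ^ (p - 1)) :=
          mul_le_mul_of_nonneg_left h2 hpi.le
        have := mul_le_mul_of_nonneg_left h6 h5
        linarith

end NECM

theorem specNEC : SpecNEC := by
  intro K _ _ _ _ σ _ p hp
  constructor
  · intro f g _ _
    unfold vc
    have i1 : ∀ u : C(K, ℝ), Integrable (fun t => u t ^ p * Real.cos (Real.pi * u t)) σ :=
      fun u => NECM.integ σ ((u.continuous.pow p).mul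
        (Real.continuous_cos.comp (continuous_const.mul u.continuous)))
    rw [← integral_add (i1 f) (i1 g), ← integral_add (i1 _) (i1 _)]
    apply integral_congr_ae
    refine Eventually.of_forall fun t => ?_
    simp only [ContinuousMap.sup_apply, ContinuousMap.inf_apply]
    rcases le_total (f t) (g t) with h | h
    · rw [sup_eq_right.2 h, inf_eq_left.2 h]
      ring
    · rw [sup_eq_left.2 h, inf_eq_right.2 h]
  · intro f hf ε hε
    have hpi := Real.pi_pos
    obtain ⟨B, hB⟩ : ∃ B : ℝ, B = ‖f‖ := ⟨_, rfl⟩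
    have hB0 : 0 ≤ B := by rw [hB]; exact norm_nonneg _
    have hfB : ∀ t, f t ≤ B := fun t => by
      rw [hB]
      exact (le_abs_self _).trans (f.norm_coe_le_norm t)
    obtain ⟨S, hS⟩ : ∃ S : ℝ, S = (σ univ).toReal := ⟨_, rfl⟩
    have hS0 : 0 ≤ S := by rw [hS]; exact ENNReal.toReal_nonneg
    obtain ⟨A, hA⟩ : ∃ A : ℝ, A = B ^ p * Real.pi := ⟨_, rfl⟩
    have hA0 : 0 ≤ A := by rw [hA]; positivity
    obtain ⟨θ, hθ⟩ : ∃ θ : ℝ, θ = ε / (3 * (A * S + 1)) := ⟨_, rfl⟩
    have hθ0 : 0 < θ := by rw [hθ]; positivity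
    have hθ1 : A * θ * S ≤ ε / 3 := by
      rw [hθ]
      have : A * (ε / (3 * (A * S + 1))) * S = (A * S / (A * S + 1)) * (ε / 3) := by
        field_simp
      rw [this]
      apply mul_le_of_le_one_left (by positivity)
      rw [div_le_one (by positivity)]
      linarith
    obtain ⟨δ, hδ0, hδ1, hδ2⟩ : ∃ δ : ℝ, 0 < δ ∧ δ ≤ ε / 3 ∧ A / θ ^ (p - 1) * δ ≤ ε / 3 := by
      refine ⟨min (ε / 3) (ε / (3 * (A / θ ^ (p - 1) + 1))), by positivity, min_le_left _ _, ?_⟩
      have h1 : 0 ≤ A / θ ^ (p - 1) := by positivity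
      calc A / θ ^ (p - 1) * min (ε / 3) (ε / (3 * (A / θ ^ (p - 1) + 1)))
          ≤ A / θ ^ (p - 1) * (ε / (3 * (A / θ ^ (p - 1) + 1))) :=
            mul_le_mul_of_nonneg_left (min_le_right _ _) h1
        _ = (A / θ ^ (p - 1)) / (A / θ ^ (p - 1) + 1) * (ε / 3) := by
            generalize A / θ ^ (p - 1) = x at h1 ⊢
            field_simp
        _ ≤ 1 * (ε / 3) := by
            apply mul_le_mul_of_nonneg_right _ (by positivity)
            rw [div_le_one (by positivity)]
            linarith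
        _ = ε / 3 := one_mul _
    refine ⟨δ, hδ0, ?_⟩
    intro g hg hgf
    have cpow : ∀ u : C(K, ℝ), Continuous fun t => u t ^ p := fun u => u.continuous.pow p
    have cphi : ∀ u : C(K, ℝ), Continuous fun t => u t ^ p * Real.cos (Real.pi * u t) :=
      fun u => (cpow u).mul (Real.continuous_cos.comp (continuous_const.mul u.continuous))
    have cD : Continuous fun t => |g t ^ p - f t ^ p| := ((cpow g).sub (cpow f)).abs
    have hpt : ∀ t, ‖g t ^ p * Real.cos (Real.pi * g t) - f t ^ p * Real.cos (Real.pi * f t)‖ ≤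
        |g t ^ p - f t ^ p| + A * (θ + |g t ^ p - f t ^ p| / θ ^ (p - 1)) := by
      intro t
      rw [Real.norm_eq_abs, hA]
      exact NECM.point p hp (g t) (f t) B θ (hg t) (hf t) (hfB t) hθ0
    have hint : ∫ t, (|g t ^ p - f t ^ p| + A * (θ + |g t ^ p - f t ^ p| / θ ^ (p - 1))) ∂σ =
        nk σ p g f + A * (θ * S + nk σ p g f / θ ^ (p - 1)) := by
      unfold nk
      rw [integral_add (NECM.integ σ cD) (NECM.integ σ (by fun_prop)), integral_const_mul,
        integral_add (integrable_const _) (NECM.integ σ (by fun_prop)), integral_const,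
        integral_div, hS]
      simp only [smul_eq_mul, Measure.real]
      ring
    have hle : |vc σ p g - vc σ p f| ≤ nk σ p g f + A * (θ * S + nk σ p g f / θ ^ (p - 1)) := by
      rw [← hint]
      unfold vc
      rw [← integral_sub (NECM.integ σ (cphi g)) (NECM.integ σ (cphi f)), ← Real.norm_eq_abs]
      apply norm_integral_le_of_norm_le (NECM.integ σ (by fun_prop))
      exact Eventually.of_forall hpt
    have h1 : A / θ ^ (p - 1) * nk σ p g f ≤ A / θ ^ (p - 1) * δ :=
      mul_le_mul_of_nonneg_left hgf.le (by positivity)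
    have h2 : A * (θ * S + nk σ p g f / θ ^ (p - 1)) =
        A * θ * S + A / θ ^ (p - 1) * nk σ p g f := by ring
    rw [h2] at hle
    linarith

end Pool.Agent.Lib.MP5bcdfb.ND
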