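import Pool.Agent.Lib.MP_5bcdfb_an.ND.Spec

/-!
# ND, module NED: the example is not uniformly continuous on nk-bounded sets
-/

set_option autoImplicit false

namespace Pool.Agent.Lib.MP5bcdfb.ND

open MeasureTheory Set Filter Topology
open Pool.Agent.Lib.MP5bcdfb.TS Pool.Agent.Lib.MP5bcdfb.VX

namespace NEDM

/-- small balls -/
lemma small_ball {K : Type} [MetricSpace K] [MeasurableSpace K] [BorelSpace K] (σ : Measure K) [IsFiniteMeasure σ] (t : K)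
    (ht : σ {t} = 0) (c : ℝ) (hc : 0 < c) : ∃ r : ℝ, 0 < r ∧ (σ (Metric.ball t r)).toReal < c := by
  have h1 : Tendsto (σ ∘ fun n : ℕ => Metric.ball t (1 / ((n : ℝ) + 1))) atTop (𝓝 (σ (⋂ n : ℕ, Metric.ball t (1 / ((n : ℝ) + 1))))) := by
    refine tendsto_measure_iInter_atTop (fun n => Metric.isOpen_ball.measurableSet.nullMeasurableSet) ?_ ⟨0, measure_ne_top σ _⟩
    intro m n hmn
    apply Metric.ball_subset_ball
    have h : (m : ℝ) ≤ n := by exact_mod_cast hmn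
    gcongr
  have h2 : (⋂ n : ℕ, Metric.ball t (1 / ((n : ℝ) + 1))) = {t} := by
    ext x
    simp only [mem_iInter, Metric.mem_ball, mem_singleton_iff]
    constructor
    · intro h
      by_contra hx
      have h3 : 0 < dist x t := dist_pos.2 hx
      obtain ⟨n, hn⟩ := exists_nat_one_div_lt h3
      exact absurd (h n) (not_lt.2 hn.le)
    · rintro rfl n
      rw [dist_self]
      positivity
  rw [h2, ht] at h1
  have h3 := (ENNReal.tendsto_toReal ENNReal.zero_ne_top).comp h1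
  rw [ENNReal.toReal_zero] at h3
  obtain ⟨n, hn⟩ := (h3.eventually_lt_const hc).exists
  exact ⟨1 / ((n : ℝ) + 1), by positivity, hn⟩

/-- the choice of k -/
lemma choose_k (p : ℕ) (hp : 1 ≤ p) (k₀ : ℕ) (hk₀ : 1 ≤ k₀) (s : ℝ) (hs : 0 < s) (h : (2 * (k₀ : ℝ)) ^ p * s ≤ 1) :
    ∃ k : ℕ, k₀ ≤ k ∧ (2 * (k : ℝ)) ^ p * s ≤ 1 ∧ 1 < (2 * ((k : ℝ) + 1)) ^ p * s := by
  have hex : ∃ k : ℕ, 1 < (2 * ((k : ℝ) + 1)) ^ p * s := by
    obtain ⟨n, hn⟩ := exists_nat_gt (1 / s)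
    refine ⟨n, ?_⟩
    have h1 : 1 < (n : ℝ) * s := by rwa [div_lt_iff₀ hs] at hn
    have h0 : (0 : ℝ) ≤ n := Nat.cast_nonneg n
    have h2 : (n : ℝ) ≤ (2 * ((n : ℝ) + 1)) ^ p := by
      calc (n : ℝ) ≤ 2 * ((n : ℝ) + 1) := by linarith
        _ = (2 * ((n : ℝ) + 1)) ^ 1 := (pow_one _).symm
        _ ≤ _ := pow_le_pow_right₀ (by linarith) hp
    nlinarith
  classical
  let k := Nat.find hex
  have hk1 : 1 < (2 * ((k : ℝ) + 1)) ^ p * s := Nat.find_spec hex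
  have hk2 : k₀ ≤ k := by
    by_contra hcon
    have h1 : k + 1 ≤ k₀ := by omega
    have h2 : ((k : ℝ) + 1) ≤ k₀ := by exact_mod_cast h1
    have h3 : (2 * ((k : ℝ) + 1)) ^ p * s ≤ (2 * (k₀ : ℝ)) ^ p * s := by gcongr
    linarith
  refine ⟨k, hk2, ?_, hk1⟩
  have hk3 : ¬ 1 < (2 * (((k - 1 : ℕ) : ℝ) + 1)) ^ p * s := Nat.find_min hex (by omega : k - 1 < k)
  have h4 : (((k - 1 : ℕ) : ℝ) + 1) = k := by
    have : (k - 1) + 1 = k := by omega
    exact_mod_cast this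
  rw [h4] at hk3
  exact not_lt.1 hk3

lemma choose_k0 (p : ℕ) (δ : ℝ) (hδ : 0 < δ) : ∃ k₀ : ℕ, 1 ≤ k₀ ∧ ∀ k : ℕ, k₀ ≤ k → (1 + 1 / (k : ℝ)) ^ p - 1 < δ := by
  have h1 : Tendsto (fun k : ℕ => (1 + 1 / (k : ℝ)) ^ p - 1) atTop (𝓝 ((1 + 0) ^ p - 1)) :=
    ((tendsto_const_nhds.add tendsto_one_div_atTop_nhds_zero_nat).pow p).sub_const 1
  rw [add_zero, one_pow, sub_self] at h1
  obtain ⟨k₀, hk₀⟩ := eventually_atTop.1 (h1.eventually_lt_const hδ)
  exact ⟨k₀ + 1, by omega, fun k hk => hk₀ k (by omega)⟩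

/-- the comparison -/
lemma osc {K : Type} [MetricSpace K] [CompactSpace K] [MeasurableSpace K] [BorelSpace K] (σ : Measure K) [IsFiniteMeasure σ] (p : ℕ) (hp : 1 ≤ p)
    (A B : Set K) (hA : MeasurableSet A) (hB : MeasurableSet B) (hAB : A ⊆ B) (φ : C(K, ℝ)) (h0 : ∀ x, 0 ≤ φ x) (h1 : ∀ x, φ x ≤ 1)
    (hφA : ∀ x ∈ A, φ x = 1) (hφB : ∀ x, x ∉ B → φ x = 0) (j : ℕ) :
    |vc σ p ((j : ℝ) • φ) - (-1) ^ j * (j : ℝ) ^ p * (σ A).toReal| ≤ (j : ℝ) ^ p * (σ (B \ A)).toReal := by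
  have hi1 : Integrable (fun x => (((j : ℝ) • φ) x) ^ p * Real.cos (Real.pi * ((j : ℝ) • φ) x)) σ := by
    have hc : Continuous (fun x => (((j : ℝ) • φ) x) ^ p * Real.cos (Real.pi * ((j : ℝ) • φ) x)) := by fun_prop
    exact hc.integrable_of_hasCompactSupport (HasCompactSupport.of_compactSpace _)
  have hG : ∫ x, A.indicator (fun _ => (-1 : ℝ) ^ j * (j : ℝ) ^ p) x ∂σ = (-1) ^ j * (j : ℝ) ^ p * (σ A).toReal := by
    rw [integral_indicator_const _ hA, smul_eq_mul, mul_comm, measureReal_def]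
  have hi2 : Integrable (A.indicator (fun _ => (-1 : ℝ) ^ j * (j : ℝ) ^ p)) σ := (integrable_const _).indicator hA
  have hi3 : Integrable ((B \ A).indicator (fun _ => (j : ℝ) ^ p)) σ := (integrable_const _).indicator (hB.diff hA)
  rw [vc, ← hG, ← integral_sub hi1 hi2]
  have h2 : ∫ x, (B \ A).indicator (fun _ => (j : ℝ) ^ p) x ∂σ = (j : ℝ) ^ p * (σ (B \ A)).toReal := by
    rw [integral_indicator_const _ (hB.diff hA), smul_eq_mul, mul_comm, measureReal_def]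
  rw [← h2]
  refine (abs_integral_le_integral_abs).trans (integral_mono (hi1.sub hi2).abs hi3 ?_)
  intro x
  show |(((j : ℝ) • φ) x) ^ p * Real.cos (Real.pi * ((j : ℝ) • φ) x) - A.indicator (fun _ => (-1 : ℝ) ^ j * (j : ℝ) ^ p) x| ≤ (B \ A).indicator (fun _ => (j : ℝ) ^ p) x
  rw [ContinuousMap.smul_apply, smul_eq_mul]
  by_cases hxA : x ∈ A
  · rw [indicator_of_mem hxA, indicator_of_notMem (fun h => h.2 hxA), hφA x hxA, mul_one, mul_comm Real.pi, Real.cos_nat_mul_pi, mul_comm, sub_self, abs_zero]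
  by_cases hxB : x ∈ B
  · have hxd : x ∈ B \ A := ⟨hxB, hxA⟩
    rw [indicator_of_notMem hxA, indicator_of_mem hxd, sub_zero, abs_mul]
    have h3 : |((j : ℝ) * φ x) ^ p| ≤ (j : ℝ) ^ p := by
      rw [abs_of_nonneg (pow_nonneg (mul_nonneg (Nat.cast_nonneg _) (h0 x)) _)]
      exact pow_le_pow_left₀ (mul_nonneg (Nat.cast_nonneg _) (h0 x)) (mul_le_of_le_one_right (Nat.cast_nonneg _) (h1 x)) _
    calc _ ≤ (j : ℝ) ^ p * 1 := mul_le_mul h3 (Real.abs_cos_le_one _) (abs_nonneg _) (by positivity)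
      _ = _ := mul_one _
  · rw [indicator_of_notMem hxA, indicator_of_notMem (fun h => hxB h.1), hφB x hxB, mul_zero, zero_pow (by omega), zero_mul, sub_zero, abs_zero]

end NEDM

theorem specNED : SpecNED := by
  intro K _ _ _ _ σ _ p t hp ht hball δ hδ
  obtain ⟨k₀, hk₀, hk₀'⟩ := NEDM.choose_k0 p δ hδ
  have hk₀R : (1 : ℝ) ≤ k₀ := by exact_mod_cast hk₀
  obtain ⟨r, hr, hrs⟩ := NEDM.small_ball σ t ht (1 / (2 * (k₀ : ℝ)) ^ p) (by positivity)
  set B : Set K := Metric.ball t r with hBdef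
  have hB : MeasurableSet B := Metric.isOpen_ball.measurableSet
  set s : ℝ := (σ B).toReal with hsdef
  have hs : 0 < s := ENNReal.toReal_pos (hball r hr).ne' (measure_ne_top σ _)
  have hs0 : (2 * (k₀ : ℝ)) ^ p * s ≤ 1 := by
    rw [lt_div_iff₀ (by positivity)] at hrs
    linarith [mul_comm s ((2 * (k₀ : ℝ)) ^ p)]
  obtain ⟨k, hk, hk1, hk2⟩ := NEDM.choose_k p hp k₀ hk₀ s hs hs0
  have hkR : (1 : ℝ) ≤ k := by exact_mod_cast (hk₀.trans hk)
  obtain ⟨A, hAB, hAc, hA⟩ := hB.exists_isClosed_sdiff_lt (measure_ne_top σ B)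
    (ε := ENNReal.ofReal (s / 4)) (by simpa using hs)
  have hAm : MeasurableSet A := hAc.measurableSet
  have hd1 : (σ (B \ A)).toReal ≤ s / 4 := by
    have h1 := (ENNReal.toReal_mono ENNReal.ofReal_ne_top hA.le)
    rwa [ENNReal.toReal_ofReal (by positivity)] at h1
  have hd2 : (σ A).toReal = s - (σ (B \ A)).toReal := by
    have h1 : σ (B \ A) + σ A = σ B := by
      have h2 := measure_sdiff_add_inter (μ := σ) B hAm
      rwa [inter_eq_self_of_subset_right hAB] at h2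
    rw [hsdef, ← h1, ENNReal.toReal_add (measure_ne_top σ _) (measure_ne_top σ _)]
    ring
  obtain ⟨φ, hφ0, hφ1, hφI⟩ := exists_continuous_zero_one_of_isClosed (Metric.isOpen_ball.isClosed_compl : IsClosed Bᶜ) hAc
    (disjoint_compl_left_iff_subset.2 hAB)
  have h0 : ∀ x, 0 ≤ φ x := fun x => (hφI x).1
  have h1 : ∀ x, φ x ≤ 1 := fun x => (hφI x).2
  have hφA : ∀ x ∈ A, φ x = 1 := fun x hx => hφ1 hx
  have hφB : ∀ x, x ∉ B → φ x = 0 := fun x hx => hφ0 hx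
  have hint : Integrable (fun x => φ x ^ p) σ := by
    have hc : Continuous (fun x => φ x ^ p) := by fun_prop
    exact hc.integrable_of_hasCompactSupport (HasCompactSupport.of_compactSpace _)
  have hI0 : 0 ≤ ∫ x, φ x ^ p ∂σ := integral_nonneg fun x => pow_nonneg (h0 x) _
  have hI1 : ∫ x, φ x ^ p ∂σ ≤ s := by
    have h2 : ∫ x, B.indicator (fun _ => (1 : ℝ)) x ∂σ = s := by
      rw [integral_indicator_const _ hB, smul_eq_mul, mul_one, measureReal_def]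
    rw [← h2]
    refine integral_mono hint ((integrable_const _).indicator hB) ?_
    intro x
    show φ x ^ p ≤ B.indicator (fun _ => (1 : ℝ)) x
    by_cases hxB : x ∈ B
    · rw [indicator_of_mem hxB]
      exact pow_le_one₀ (h0 x) (h1 x)
    · rw [indicator_of_notMem hxB, hφB x hxB, zero_pow (by omega)]
  have hpk : ∀ c : ℝ, ∫ x, (c • φ) x ^ p ∂σ = c ^ p * ∫ x, φ x ^ p ∂σ := by
    intro c
    rw [← integral_const_mul]
    refine integral_congr_ae (Eventually.of_forall fun x => ?_)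
    show (c * φ x) ^ p = c ^ p * φ x ^ p
    rw [mul_pow]
  have hkk : (k : ℝ) ^ p ≤ ((k : ℝ) + 1) ^ p := pow_le_pow_left₀ (by linarith) (by linarith) _
  have hk2k : ((k : ℝ) + 1) ^ p ≤ (2 * (k : ℝ)) ^ p := pow_le_pow_left₀ (by linarith) (by linarith) _
  have hkp : 0 < (k : ℝ) ^ p := by positivity
  have hb1 : ((k : ℝ) + 1) ^ p * s ≤ 1 := (mul_le_mul_of_nonneg_right hk2k hs.le).trans hk1
  have hb0 : (k : ℝ) ^ p * s ≤ 1 := (mul_le_mul_of_nonneg_right hkk hs.le).trans hb1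
  have hf1 : ∫ x, ((k : ℝ) • φ) x ^ p ∂σ ≤ 1 := by
    rw [hpk]
    exact (mul_le_mul_of_nonneg_left hI1 hkp.le).trans hb0
  have hg1 : ∫ x, (((k : ℝ) + 1) • φ) x ^ p ∂σ ≤ 1 := by
    rw [hpk]
    exact (mul_le_mul_of_nonneg_left hI1 (by positivity)).trans hb1
  refine ⟨(k : ℝ) • φ, ((k : ℝ) + 1) • φ, ?_, ?_, hf1, hg1, ?_, ?_⟩
  · intro x
    exact mul_nonneg (by positivity) (h0 x)
  · intro x
    exact mul_nonneg (by positivity) (h0 x)
  · have h2 : nk σ p ((k : ℝ) • φ) (((k : ℝ) + 1) • φ) = (((k : ℝ) + 1) ^ p - (k : ℝ) ^ p) * ∫ x, φ x ^ p ∂σ := by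
      rw [nk, ← integral_const_mul]
      refine integral_congr_ae (Eventually.of_forall fun x => ?_)
      show |((k : ℝ) * φ x) ^ p - (((k : ℝ) + 1) * φ x) ^ p| = (((k : ℝ) + 1) ^ p - (k : ℝ) ^ p) * φ x ^ p
      rw [mul_pow, mul_pow, ← sub_mul, abs_mul, abs_of_nonneg (pow_nonneg (h0 x) _), abs_sub_comm, abs_of_nonneg (sub_nonneg.2 hkk)]
    rw [h2]
    have h3 : (((k : ℝ) + 1) ^ p - (k : ℝ) ^ p) * ∫ x, φ x ^ p ∂σ ≤ (((k : ℝ) + 1) ^ p - (k : ℝ) ^ p) * s :=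
      mul_le_mul_of_nonneg_left hI1 (sub_nonneg.2 hkk)
    have h4 : (((k : ℝ) + 1) ^ p - (k : ℝ) ^ p) * s = ((1 + 1 / (k : ℝ)) ^ p - 1) * ((k : ℝ) ^ p * s) := by
      have h5 : ((k : ℝ) + 1) ^ p = (1 + 1 / (k : ℝ)) ^ p * (k : ℝ) ^ p := by
        rw [← mul_pow]
        congr 1
        field_simp
      rw [h5]
      ring
    have h6 : ((1 + 1 / (k : ℝ)) ^ p - 1) * ((k : ℝ) ^ p * s) ≤ ((1 + 1 / (k : ℝ)) ^ p - 1) * 1 := by
      refine mul_le_mul_of_nonneg_left hb0 (sub_nonneg.2 (one_le_pow₀ ?_))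
      have : (0 : ℝ) ≤ 1 / (k : ℝ) := by positivity
      linarith
    linarith [hk₀' k hk]
  · have e1 := NEDM.osc σ p hp A B hAm hB hAB φ h0 h1 hφA hφB k
    have e2 := NEDM.osc σ p hp A B hAm hB hAB φ h0 h1 hφA hφB (k + 1)
    rw [Nat.cast_add, Nat.cast_one] at e2
    set a : ℝ := (σ A).toReal with hadef
    set d : ℝ := (σ (B \ A)).toReal with hddef
    have hd0 : 0 ≤ d := ENNReal.toReal_nonneg
    set X : ℝ := vc σ p ((k : ℝ) • φ) with hX
    set Y : ℝ := vc σ p (((k : ℝ) + 1) • φ) with hY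
    have hsg : (-1 : ℝ) ^ k = 1 ∨ (-1 : ℝ) ^ k = -1 := neg_one_pow_eq_or ℝ k
    have hkp1 : 0 < ((k : ℝ) + 1) ^ p := by positivity
    have hm1 : (k : ℝ) ^ p * d ≤ (k : ℝ) ^ p * (s / 4) := mul_le_mul_of_nonneg_left hd1 hkp.le
    have hm2 : ((k : ℝ) + 1) ^ p * d ≤ ((k : ℝ) + 1) ^ p * (s / 4) := mul_le_mul_of_nonneg_left hd1 hkp1.le
    have hm3 : (k : ℝ) ^ p * (3 * s / 4) ≤ (k : ℝ) ^ p * a := mul_le_mul_of_nonneg_left (by linarith) hkp.le
    have hm4 : ((k : ℝ) + 1) ^ p * (3 * s / 4) ≤ ((k : ℝ) + 1) ^ p * a := mul_le_mul_of_nonneg_left (by linarith) hkp1.le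
    have hm5 : (k : ℝ) ^ p * s ≤ ((k : ℝ) + 1) ^ p * s := mul_le_mul_of_nonneg_right hkk hs.le
    have hlow : (1 / 4 : ℝ) ^ p ≤ (k : ℝ) ^ p * s := by
      have h2 : (2 * ((k : ℝ) + 1)) ^ p ≤ (4 * (k : ℝ)) ^ p := pow_le_pow_left₀ (by linarith) (by linarith) _
      have h3 : 1 < (4 * (k : ℝ)) ^ p * s := lt_of_lt_of_le hk2 (mul_le_mul_of_nonneg_right h2 hs.le)
      rw [mul_pow, mul_assoc] at h3
      rw [one_div, inv_pow, inv_eq_one_div, div_le_iff₀ (by positivity)]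
      linarith [mul_comm ((4 : ℝ) ^ p) ((k : ℝ) ^ p * s)]
    rw [pow_succ] at e2
    rcases hsg with h2 | h2
    · rw [h2] at e1 e2
      rw [abs_le] at e1 e2
      have h3 : (k : ℝ) ^ p * s ≤ X - Y := by linarith [e1.1, e1.2, e2.1, e2.2]
      exact hlow.trans (h3.trans (le_abs_self _))
    · rw [h2] at e1 e2
      rw [abs_le] at e1 e2
      have h3 : (k : ℝ) ^ p * s ≤ -(X - Y) := by linarith [e1.1, e1.2, e2.1, e2.2]
      exact hlow.trans (h3.trans (neg_le_abs _))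

end Pool.Agent.Lib.MP5bcdfb.ND

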