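import Pool.Agent.Lib.MP_5bcdfb_an.ND.Spec

/-!
# MP_5bcdfb, module NUC: from continuity at `0` to uniform continuity
-/

set_option autoImplicit false

namespace Pool.Agent.Lib.MP5bcdfb.ND

open MeasureTheory Set Filter Topology
open Pool.Agent.Lib.MP5bcdfb.TS Pool.Agent.Lib.MP5bcdfb.VX

noncomputable section

namespace NUCM

theorem isVal_neg {K : Type} [TopologicalSpace K] {V : C(K, ℝ) → ℝ} (hV : IsVal V) :
    IsVal (fun h => -V h) := by
  intro f g hf hg
  have := hV f g hf hg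
  show -V f + -V g = -V (f ⊔ g) + -V (f ⊓ g)
  linarith

theorem nc0_neg {K : Type} [TopologicalSpace K] [CompactSpace K] [MeasurableSpace K]
    {σ : Measure K} {p : ℕ} {V : C(K, ℝ) → ℝ} (h : NC0 σ p V) : NC0 σ p (fun h => -V h) := by
  intro m ε hm hε
  obtain ⟨δ, hδ, H⟩ := h m ε hm hε
  refine ⟨δ, hδ, fun f hf hfm hn => ?_⟩
  have h1 := H f hf hfm hn
  have h2 : -V f - -V 0 = -(V f - V 0) := by ring
  show |-V f - -V 0| ≤ ε
  rw [h2, abs_neg]
  exact h1

theorem le_of_norm {K : Type} [TopologicalSpace K] [CompactSpace K] {f : C(K, ℝ)} {m : ℝ}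
    (h : ‖f‖ ≤ m) (t : K) : f t ≤ m :=
  ((le_abs_self _).trans (f.norm_coe_le_norm t)).trans h

theorem norm_le_of {K : Type} [TopologicalSpace K] [CompactSpace K] {f : C(K, ℝ)} {m : ℝ}
    (hm : 0 ≤ m) (h0 : ∀ t, 0 ≤ f t) (h : ∀ t, f t ≤ m) : ‖f‖ ≤ m := by
  rw [ContinuousMap.norm_le _ hm]
  intro t
  rw [Real.norm_eq_abs, abs_of_nonneg (h0 t)]
  exact h t

theorem integrable_aux {K : Type} [MetricSpace K] [CompactSpace K] [MeasurableSpace K]
    [BorelSpace K] (σ : Measure K) [IsFiniteMeasure σ] (p : ℕ) (f g : C(K, ℝ)) :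
    Integrable (fun t => |f t ^ p - g t ^ p|) σ := by
  refine Continuous.integrable_of_hasCompactSupport ?_ (HasCompactSupport.of_compactSpace _)
  exact ((f.continuous.pow p).sub (g.continuous.pow p)).abs

theorem nk_mono {K : Type} [MetricSpace K] [CompactSpace K] [MeasurableSpace K]
    [BorelSpace K] (σ : Measure K) [IsFiniteMeasure σ] (p : ℕ) (f g f' g' : C(K, ℝ))
    (h : ∀ t, |f t ^ p - g t ^ p| ≤ |f' t ^ p - g' t ^ p|) : nk σ p f g ≤ nk σ p f' g' :=
  integral_mono (integrable_aux σ p f g) (integrable_aux σ p f' g') h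

/-- Markov's inequality -/
theorem markov {K : Type} [MetricSpace K] [CompactSpace K] [MeasurableSpace K]
    [BorelSpace K] (σ : Measure K) [IsFiniteMeasure σ] (p : ℕ) (hp : 1 ≤ p) (f g : C(K, ℝ))
    (hg : ∀ t, 0 ≤ g t) (hgf : ∀ t, g t ≤ f t) (d : ℝ) (hd : 0 < d) :
    d ^ p * (σ {t | d < f t - g t}).toReal ≤ nk σ p f g := by
  have h1 : d ^ p * σ.real {t | d ^ p ≤ |f t ^ p - g t ^ p|} ≤ ∫ t, |f t ^ p - g t ^ p| ∂σ :=
    mul_meas_ge_le_integral_of_nonneg (ae_of_all _ fun t => abs_nonneg _)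
      (integrable_aux σ p f g) (d ^ p)
  have h2 : {t | d < f t - g t} ⊆ {t | d ^ p ≤ |f t ^ p - g t ^ p|} := by
    intro t ht
    have ht' : d < f t - g t := ht
    have h3 : (f t - g t) ^ p + g t ^ p ≤ (f t - g t + g t) ^ p :=
      pow_add_pow_le (by linarith [hgf t]) (hg t) (by omega)
    rw [sub_add_cancel] at h3
    have h4 : d ^ p ≤ (f t - g t) ^ p := pow_le_pow_left₀ hd.le ht'.le p
    show d ^ p ≤ |f t ^ p - g t ^ p|
    exact le_trans (by linarith) (le_abs_self _)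
  have h5 : (σ {t | d < f t - g t}).toReal ≤ σ.real {t | d ^ p ≤ |f t ^ p - g t ^ p|} :=
    measureReal_mono h2
  have h6 : 0 ≤ d ^ p := (pow_pos hd p).le
  exact (mul_le_mul_of_nonneg_left h5 h6).trans h1

end NUCM

open NUCM in
theorem specNUC (hOWB : VX.SpecOWB) (hOWM : VX.SpecOWM) (hACN : SpecACN) (hNAC : SpecNAC) :
    SpecNUC := by
  intro K _ _ _ _ σ _ p V hp hV hUCB hB hNC m ε hm hε
  obtain ⟨M, hM⟩ := hB m
  have hc0 : (0 : C(K, ℝ)) ≤ ContinuousMap.const K m := fun t => by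
    show (0 : ℝ) ≤ m
    exact hm.le
  have hM1 : ∀ h : C(K, ℝ), 0 ≤ h → h ≤ ContinuousMap.const K m → |V h| ≤ M :=
    fun h h0 h1 => hM h h0 fun t => h1 t
  have hM2 : ∀ h : C(K, ℝ), 0 ≤ h → (∀ t, h t ≤ m) → |(fun h => -V h) h| ≤ M := by
    intro h h0 h1
    show |-V h| ≤ M
    rw [abs_neg]
    exact hM h h0 h1
  have hM3 : ∀ h : C(K, ℝ), 0 ≤ h → h ≤ ContinuousMap.const K m → |(fun h => -V h) h| ≤ M :=
    fun h h0 h1 => hM2 h h0 fun t => h1 t
  obtain ⟨ν, hν⟩ := hOWM K V 0 (ContinuousMap.const K m) M hV le_rfl hc0 hM1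
  obtain ⟨ν', hν'⟩ := hOWM K (fun h => -V h) 0 (ContinuousMap.const K m) M (isVal_neg hV) le_rfl
    hc0 hM3
  haveI := hν.fin
  haveI := hν'.fin
  have hε4 : 0 < ε / 4 := by linarith
  obtain ⟨η₁, hη₁, H₁⟩ := hNAC K σ ν (hACN K σ p V m M hp hV hm hM hNC ν hν) (ε / 4) hε4
  obtain ⟨η₂, hη₂, H₂⟩ := hNAC K σ ν' (hACN K σ p (fun h => -V h) m M hp (isVal_neg hV) hm hM2
    (nc0_neg hNC) ν' hν') (ε / 4) hε4
  obtain ⟨δ₁, hδ₁, HU⟩ := hUCB m (ε / 4) hm hε4
  have hb1 := (hOWB K V 0 (ContinuousMap.const K m) M hV le_rfl hc0 hM1).2.1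
  have hb2 := (hOWB K (fun h => -V h) 0 (ContinuousMap.const K m) M (isVal_neg hV) le_rfl
    hc0 hM3).2.1
  set d : ℝ := δ₁ / 2 with hd
  have hdpos : 0 < d := by rw [hd]; linarith
  have hd2 : 0 < d / 2 := by linarith
  have hη : 0 < min η₁ η₂ := lt_min hη₁ hη₂
  -- the ordered case
  have key : ∀ f g : C(K, ℝ), (∀ t, 0 ≤ g t) → (∀ t, g t ≤ f t) → (∀ t, f t ≤ m) →
      nk σ p f g < (d / 2) ^ p * min η₁ η₂ → |V f - V g| ≤ ε / 2 := by
    intro f g hg hgf hfm hn
    set h : C(K, ℝ) := f ⊓ (g + ContinuousMap.const K d) with hh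
    have hht : ∀ t, h t = min (f t) (g t + d) := fun t => rfl
    have hgh : ∀ t, g t ≤ h t := by
      intro t
      rw [hht]
      exact le_min (hgf t) (by linarith)
    have hhf : ∀ t, h t ≤ f t := by
      intro t
      rw [hht]
      exact min_le_left _ _
    have h0 : ∀ t, 0 ≤ h t := fun t => (hg t).trans (hgh t)
    have hnorm : ‖h - g‖ < δ₁ := by
      have h1 : ‖h - g‖ ≤ d := by
        rw [ContinuousMap.norm_le _ hdpos.le]
        intro t
        rw [ContinuousMap.sub_apply, Real.norm_eq_abs, abs_of_nonneg (by linarith [hgh t]), hht]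
        have := min_le_right (f t) (g t + d)
        linarith
      exact lt_of_le_of_lt h1 (by rw [hd]; linarith)
    have h1 : |V h - V g| ≤ ε / 4 := by
      refine HU h g (fun t => h0 t) (fun t => hg t) ?_ ?_ hnorm
      · exact norm_le_of hm.le h0 fun t => (hhf t).trans (hfm t)
      · exact norm_le_of hm.le hg fun t => (hgf t).trans (hfm t)
    -- the open set
    have hUo : IsOpen {t | d / 2 < f t - g t} :=
      isOpen_lt continuous_const (f.continuous.sub g.continuous)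
    have hsupp : tsupport (fun t => f t - h t) ⊆ {t | d / 2 < f t - g t} := by
      have h2 : tsupport (fun t => f t - h t) ⊆ {t | d ≤ f t - g t} := by
        refine closure_minimal ?_ (isClosed_le continuous_const (f.continuous.sub g.continuous))
        intro t ht
        have ht' : f t - h t ≠ 0 := ht
        show d ≤ f t - g t
        by_contra hlt
        push Not at hlt
        apply ht'
        rw [hht, min_eq_left (by linarith), sub_self]
      intro t ht
      have h3 : d ≤ f t - g t := h2 ht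
      show d / 2 < f t - g t
      linarith
    have hBt : Bt 0 (ContinuousMap.const K m) {t | d / 2 < f t - g t} h f :=
      ⟨fun t => h0 t, hhf, fun t => hfm t, hsupp⟩
    have hσ : (σ {t | d / 2 < f t - g t}).toReal ≤ min η₁ η₂ := by
      have h2 := markov σ p hp f g hg hgf (d / 2) hd2
      have h3 : (d / 2) ^ p * (σ {t | d / 2 < f t - g t}).toReal < (d / 2) ^ p * min η₁ η₂ :=
        lt_of_le_of_lt h2 hn
      exact (lt_of_mul_lt_mul_left h3 (pow_pos hd2 p).le).le
    have h2 : V f - V h ≤ ε / 4 := by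
      have h3 := hb1 {t | d / 2 < f t - g t} h f hBt
      rw [← hν.eq _ hUo] at h3
      exact h3.trans (H₁ _ hUo.measurableSet (hσ.trans (min_le_left _ _)))
    have h4 : -V f - -V h ≤ ε / 4 := by
      have h3 := hb2 {t | d / 2 < f t - g t} h f hBt
      rw [← hν'.eq _ hUo] at h3
      exact h3.trans (H₂ _ hUo.measurableSet (hσ.trans (min_le_right _ _)))
    rw [abs_le] at h1 ⊢
    constructor
    · linarith [h1.1]
    · linarith [h1.2]
  refine ⟨(d / 2) ^ p * min η₁ η₂, mul_pos (pow_pos hd2 p) hη, ?_⟩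
  intro f g hf hg hfm hgm hn
  have hq0 : ∀ t, 0 ≤ (f ⊓ g) t := fun t => le_min (hf t) (hg t)
  have hqt : ∀ t, (f ⊓ g) t = min (f t) (g t) := fun t => rfl
  have e1 : |V f - V (f ⊓ g)| ≤ ε / 2 := by
    refine key f (f ⊓ g) hq0 (fun t => min_le_left _ _) (le_of_norm hfm) (lt_of_le_of_lt ?_ hn)
    refine nk_mono σ p _ _ _ _ fun t => ?_
    rw [hqt]
    rcases le_total (f t) (g t) with h | h
    · rw [min_eq_left h, sub_self, abs_zero]
      exact abs_nonneg _
    · rw [min_eq_right h]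
  have e2 : |V g - V (f ⊓ g)| ≤ ε / 2 := by
    refine key g (f ⊓ g) hq0 (fun t => min_le_right _ _) (le_of_norm hgm) (lt_of_le_of_lt ?_ hn)
    refine nk_mono σ p _ _ _ _ fun t => ?_
    rw [hqt]
    rcases le_total (f t) (g t) with h | h
    · rw [min_eq_left h, abs_sub_comm]
    · rw [min_eq_right h, sub_self, abs_zero]
      exact abs_nonneg _
  rw [abs_le] at e1 e2 ⊢
  constructor
  · linarith [e1.1, e2.2]
  · linarith [e1.2, e2.1]

end

end Pool.Agent.Lib.MP5bcdfb.ND
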