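import Pool.Agent.Lib.MP_5bcdfb_an.VX.Spec

/-!
# MP_5bcdfb: Q1 for the symmetric difference metric. Definitions and exact statements

For star bodies `K_f, K_g` in `ℝ^n` the volume of the symmetric difference is `∫ |f^n - g^n| dσ`, `σ` = the surface measure of `S^(n-1)` divided by `n`. Here: any finite Borel measure `σ` on a
compact metric space `K` and `nk σ p f g = ∫ |f^p - g^p| dσ`, `p ≥ 1`.
THEOREM (`Results/MP_5bcdfb_an/SymmetricDifference.lean`). (1) Let `V` be a valuation on `C(K)^+` which is (radial) continuous at the functions of a set `D` with the property `Test`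
(for instance `D = C(K)^+`), and continuous at the single function `0` for `nk` on bounded sets. Then `V` is uniformly continuous for `nk` on bounded sets. (2) For `nk`-bounded sets instead of bounded sets this is false, even if
`V` is `nk`-continuous everywhere (`V f = ∫ f^p cos (π f) dσ`).

Module `XXX` is the file `ND/XXX.lean` with `theorem specXXX (hYYY : SpecYYY) .. : SpecXXX` (the modules named after USES, in this order; `VX.SpecYYY`, `TS.SpecYYY` from the earlier hives)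
in the namespace `Pool.Agent.Lib.MP5bcdfb.ND`, own lemmas in the namespace `XXXM`. Every module imports only `Pool.Agent.Lib.MP_5bcdfb_an.ND.Spec`. All proofs below are complete.
-/

set_option autoImplicit false

namespace Pool.Agent.Lib.MP5bcdfb.ND

open MeasureTheory Set Filter Topology
open Pool.Agent.Lib.MP5bcdfb.TS Pool.Agent.Lib.MP5bcdfb.VX

noncomputable section

/-- the distance `∫ |f^p - g^p| dσ` -/
def nk {K : Type} [TopologicalSpace K] [MeasurableSpace K] (σ : Measure K) (p : ℕ) (f g : C(K, ℝ)) : ℝ :=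
  ∫ t, |f t ^ p - g t ^ p| ∂σ

/-- continuity at `0` for `nk` on bounded sets -/
def NC0 {K : Type} [TopologicalSpace K] [CompactSpace K] [MeasurableSpace K] (σ : Measure K) (p : ℕ) (V : C(K, ℝ) → ℝ) : Prop :=
  ∀ m ε : ℝ, 0 < m → 0 < ε → ∃ δ : ℝ, 0 < δ ∧ ∀ f : C(K, ℝ), 0 ≤ f → ‖f‖ ≤ m → nk σ p f 0 < δ → |V f - V 0| ≤ ε

/-- uniform continuity for `nk` on bounded sets -/
def UCN {K : Type} [TopologicalSpace K] [CompactSpace K] [MeasurableSpace K] (σ : Measure K) (p : ℕ) (V : C(K, ℝ) → ℝ) : Prop :=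
  ∀ m ε : ℝ, 0 < m → 0 < ε → ∃ δ : ℝ, 0 < δ ∧ ∀ f g : C(K, ℝ), 0 ≤ f → 0 ≤ g → ‖f‖ ≤ m → ‖g‖ ≤ m →
    nk σ p f g < δ → |V f - V g| ≤ ε

/-- continuity for `nk` at every `f ≥ 0` -/
def NCont {K : Type} [TopologicalSpace K] [MeasurableSpace K] (σ : Measure K) (p : ℕ) (V : C(K, ℝ) → ℝ) : Prop :=
  ∀ f : C(K, ℝ), 0 ≤ f → ∀ ε : ℝ, 0 < ε → ∃ δ : ℝ, 0 < δ ∧ ∀ g : C(K, ℝ), 0 ≤ g → nk σ p g f < δ → |V g - V f| < ε

/-- `∫ f^p cos (π f) dσ` -/
def vc {K : Type} [TopologicalSpace K] [MeasurableSpace K] (σ : Measure K) (p : ℕ) (f : C(K, ℝ)) : ℝ :=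
  ∫ t, f t ^ p * Real.cos (Real.pi * f t) ∂σ

/-- **ACN** (170 lines), USES TS.LOC. The increment measure vanishes on the null sets of `σ`.
PROOF. Let `G` be compact, `σ G = 0`, `ε > 0`, `δ` from `NC0` for `m`, `ε`; an open `U ⊇ G` with `m^p σ(U) < δ` (outer regularity). `ν G ≤ ν U = ow W 0 m U` (a supremum): take `Bt 0 m U p q` with `W q - W p > ow - ε`
(the supremum is finite, `≤ 2 M`). `φ` continuous, `0 ≤ φ ≤ 1`, `φ = 1` on `S = tsupport (q - p)`, `φ = 0` off `U` (Urysohn). `P = φ p`, `Q = P + (q - p)`: `0 ≤ P ≤ Q ≤ m` (`Q = q` on `S`, `Q = P` off `S`), both vanish off `U`, so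
`nk P 0, nk Q 0 ≤ m^p σ(U) < δ`. LOC: `W Q - W P = W q - W p`. So `ν G ≤ ow ≤ |W Q - W 0| + |W P - W 0| + ε ≤ 3 ε`. -/
def SpecACN : Prop := ∀ (K : Type) [MetricSpace K] [CompactSpace K] [MeasurableSpace K] [BorelSpace K] (σ : Measure K) [IsFiniteMeasure σ] (p : ℕ)
  (W : C(K, ℝ) → ℝ) (m M : ℝ), 1 ≤ p → IsVal W → 0 < m → (∀ h : C(K, ℝ), 0 ≤ h → (∀ t, h t ≤ m) → |W h| ≤ M) → NC0 σ p W →
  ∀ ν : Measure K, IsJ W 0 (ContinuousMap.const K m) ν → ∀ G : Set K, IsCompact G → σ G = 0 → ν G = 0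

/-- **NAC** (80 lines). Absolute continuity in the form with `ε` and `δ`.
PROOF. By inner regularity `ν ≪ σ` (a measurable `σ`-null set `B` with `ν B > 0` contains a compact set `G` with `ν G > 0`). If no `δ` works for `ε`: measurable `B_j`, `σ B_j ≤ 2^(-j)`, `ν B_j > ε`; `B = limsup B_j` has `σ B = 0` and
`ν B ≥ limsup ν B_j ≥ ε` (finite measure). -/
def SpecNAC : Prop := ∀ (K : Type) [MetricSpace K] [CompactSpace K] [MeasurableSpace K] [BorelSpace K] (σ ν : Measure K) [IsFiniteMeasure σ] [IsFiniteMeasure ν],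
  (∀ G : Set K, IsCompact G → σ G = 0 → ν G = 0) → ∀ ε : ℝ, 0 < ε → ∃ δ : ℝ, 0 < δ ∧ ∀ B : Set K, MeasurableSet B → (σ B).toReal ≤ δ → (ν B).toReal ≤ ε

/-- **NUC** (200 lines), USES VX.OWB, VX.OWM, ACN, NAC. From continuity at `0` to uniform continuity.
PROOF. Given `m, ε`; `M` for `m`; OWM for `V` and for `-V` (a valuation with the same properties), `f = 0`, `g = m`: measures `ν₊, ν₋`, absolutely continuous by ACN; `η` from NAC for both and `ε/4`. `δ₁ > 0` from `UCB V` for `m`, `ε/4`: `‖u - v‖ < 2 δ₁` is enough.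
`δ = (δ₁/2)^p η`. Let `g ≤ f` (both in `[0, m]`), `nk f g < δ`, `h = f ⊓ (g + δ₁)`: `g ≤ h ≤ f`, `‖h - g‖ ≤ δ₁`, so `|V h - V g| ≤ ε/4`. `f - h` is supported in `{f - g ≥ δ₁} ⊆ U = {f - g > δ₁/2}`, `Bt 0 m U h f`, so (OWB) `V f - V h ≤ ow V 0 m U = ν₊ U`, `-(V f - V h) ≤ ν₋ U`, and
`σ U (δ₁/2)^p ≤ ∫ |f^p - g^p|` (`f^p - g^p ≥ (f - g)^p`), so `σ U ≤ η` and `|V f - V h| ≤ ε/4`: `|V f - V g| ≤ ε/2`. For general `f, g` compare both with `f ⊓ g` (`|f^p - (f ⊓ g)^p| ≤ |f^p - g^p|`). -/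
def SpecNUC : Prop := ∀ (K : Type) [MetricSpace K] [CompactSpace K] [MeasurableSpace K] [BorelSpace K] (σ : Measure K) [IsFiniteMeasure σ] (p : ℕ)
  (V : C(K, ℝ) → ℝ), 1 ≤ p → IsVal V → UCB V → (∀ m : ℝ, ∃ M : ℝ, ∀ h : C(K, ℝ), 0 ≤ h → (∀ t, h t ≤ m) → |V h| ≤ M) → NC0 σ p V → UCN σ p V

/-- **NEC** (150 lines). The example is an `nk`-continuous valuation.
PROOF. Valuation: pointwise `{max, min}`. Continuity at `f`, `0 ≤ f ≤ B`: `|g^p cos πg - f^p cos πf| ≤ |g^p - f^p| + B^p π |g - f|`, `|g - f|^p ≤ |g^p - f^p|` for `f, g ≥ 0`, and for `θ > 0` `|g - f| ≤ θ + θ^(1-p) |g - f|^p` (if `|g - f| > θ`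
then `|g - f| = |g - f|^p/|g - f|^(p-1) ≤ |g - f|^p/θ^(p-1)`). So `|V g - V f| ≤ nk + B^p π (θ σ(K) + θ^(1-p) nk)`: first `θ`, then `δ`. All functions are continuous and bounded, so integrable. -/
def SpecNEC : Prop := ∀ (K : Type) [MetricSpace K] [CompactSpace K] [MeasurableSpace K] [BorelSpace K] (σ : Measure K) [IsFiniteMeasure σ] (p : ℕ), 1 ≤ p →
  IsVal (vc σ p) ∧ NCont σ p (vc σ p)

/-- **NED** (220 lines). The example is not uniformly continuous on `{∫ f^p dσ ≤ 1}`, `ε = 4^(-p)`.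
PROOF. Given `δ`, let `k₀ ≥ 1` with `(1 + 1/k)^p - 1 < δ` for `k ≥ k₀`. `s = σ(ball t r) > 0` tends to `σ {t} = 0` as `r → 0`: choose `r` with `(2 k₀)^p s ≤ 1`, and `k` the greatest natural number with `(2 k)^p s ≤ 1`; `k ≥ k₀`, `(2 (k+1))^p s > 1`, so `k^p s ≥ 4^(-p)` (`k + 1 ≤ 2 k`).
`A = closedBall t r'`, `r' < r`, with `σ(ball t r \ A) ≤ s/4`; `φ = 1` on `A`, `0` off `ball t r` (Urysohn). `f = k φ`, `g = (k+1) φ`. `∫ f^p ≤ k^p s ≤ 1`, `∫ g^p ≤ (k+1)^p s ≤ (2k)^p s ≤ 1`, `nk f g = ((k+1)^p - k^p) ∫ φ^p ≤ ((1+1/k)^p - 1) k^p s < δ`.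
`V f = (-1)^k k^p σ(A) + e₁`, `V g = (-1)^(k+1) (k+1)^p σ(A) + e₂`, `|e₁| ≤ k^p s/4`, `|e₂| ≤ (k+1)^p s/4`: `|V f - V g| ≥ (k^p + (k+1)^p)(3/4 - 1/4) s ≥ k^p s ≥ 4^(-p)`. -/
def SpecNED : Prop := ∀ (K : Type) [MetricSpace K] [CompactSpace K] [MeasurableSpace K] [BorelSpace K] (σ : Measure K) [IsFiniteMeasure σ] (p : ℕ) (t : K), 1 ≤ p →
  σ {t} = 0 → (∀ r : ℝ, 0 < r → 0 < σ (Metric.ball t r)) → ∀ δ : ℝ, 0 < δ → ∃ f g : C(K, ℝ), 0 ≤ f ∧ 0 ≤ g ∧ ∫ x, f x ^ p ∂σ ≤ 1 ∧ ∫ x, g x ^ p ∂σ ≤ 1 ∧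
    nk σ p f g < δ ∧ (1 / 4 : ℝ) ^ p ≤ |vc σ p f - vc σ p g|

/-- **NCS** (90 lines). `nk`-continuity implies the hypotheses of the theorem.
PROOF. If `‖g - f‖ ≤ 1`, `f, g ≥ 0`, then `|g^p - f^p| ≤ p (‖f‖ + 1)^(p-1) |g - f|` (or `abs_pow_sub_pow_le`-type lemmas, or uniform continuity of `x ↦ x^p` on `[0, ‖f‖ + 1]`), so `nk σ p g f ≤ p (‖f‖ + 1)^(p-1) ‖g - f‖ σ(K)`. The second part is the case `f = 0`. -/
def SpecNCS : Prop := ∀ (K : Type) [MetricSpace K] [CompactSpace K] [MeasurableSpace K] [BorelSpace K] (σ : Measure K) [IsFiniteMeasure σ] (p : ℕ)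
  (V : C(K, ℝ) → ℝ), 1 ≤ p → NCont σ p V → (∀ f : C(K, ℝ), 0 ≤ f → ContAt V f) ∧ NC0 σ p V

end

end Pool.Agent.Lib.MP5bcdfb.ND
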