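import Pool.Agent.Lib.MP_5bcdfb_an.VX.Main
import Pool.Agent.Lib.MP_5bcdfb_an.ND.Spec
import Pool.Agent.Lib.MP_5bcdfb_an.ND.ACN
import Pool.Agent.Lib.MP_5bcdfb_an.ND.NAC
import Pool.Agent.Lib.MP_5bcdfb_an.ND.NUC
import Pool.Agent.Lib.MP_5bcdfb_an.ND.NEC
import Pool.Agent.Lib.MP_5bcdfb_an.ND.NED
import Pool.Agent.Lib.MP_5bcdfb_an.ND.NCS

/-!
# MP_5bcdfb, ND: assembly
-/

set_option autoImplicit false

namespace Pool.Agent.Lib.MP5bcdfb.ND

open MeasureTheory Set Filter Topology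
open Pool.Agent.Lib.MP5bcdfb.TS Pool.Agent.Lib.MP5bcdfb.VX

theorem allNUC : SpecNUC := specNUC VX.allOWB (specOWM VX.allOWB) (specACN TS.specLOC) specNAC

theorem test_all {K : Type} [TopologicalSpace K] [MeasurableSpace K] : Test {f : C(K, ℝ) | 0 ≤ f} := by
  intro a μ _ ha hμ
  refine ⟨a, ha, ?_⟩
  have : {t | a t = a t} = univ := by ext t; simp
  rw [this]
  exact Measure.measure_univ_pos.2 hμ

/-- continuity on a set `D` with the property `Test` and `nk`-continuity at `0` -/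
theorem nd_pos (K : Type) [MetricSpace K] [CompactSpace K] [MeasurableSpace K] [BorelSpace K] (σ : Measure K) [IsFiniteMeasure σ] (p : ℕ) (hp : 1 ≤ p)
    (D : Set C(K, ℝ)) (hD0 : ∀ f ∈ D, 0 ≤ f) (hD : Test D) (V : C(K, ℝ) → ℝ) (hV : IsVal V) (hc : ∀ f ∈ D, ContAt V f) (h0 : NC0 σ p V) :
    UCN σ p V := by
  refine allNUC K σ p V hp hV (TS.allFWD K D hD0 hD V hV hc) ?_ h0
  refine TS.specBDD TS.specLOC K V hV ?_
  intro t x hx
  obtain ⟨f, hf, h⟩ := hD (ContinuousMap.const K x) (Measure.dirac t) (by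
    rw [ContinuousMap.le_def]
    intro s
    simpa using hx) (by
    intro h
    have := congrArg (fun μ : Measure K => μ univ) h
    simp at this)
  have ht : f t = x := by
    by_contra hne
    have h1 : Measure.dirac t {s | f s = (ContinuousMap.const K x) s} = 0 := by
      have hm : MeasurableSet {s | f s = (ContinuousMap.const K x) s} :=
        (isClosed_eq f.continuous (ContinuousMap.const K x).continuous).measurableSet
      rw [Measure.dirac_apply' _ hm]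
      simp only [Set.indicator_apply_eq_zero, Set.mem_setOf_eq]
      intro h2
      exact absurd h2 hne
    rw [h1] at h
    exact lt_irrefl _ h
  exact ⟨f, hD0 f hf, ht, hc f hf⟩

/-- Q1 for the metric `nk` -/
theorem nd_main (K : Type) [MetricSpace K] [CompactSpace K] [MeasurableSpace K] [BorelSpace K] (σ : Measure K) [IsFiniteMeasure σ] (p : ℕ) (hp : 1 ≤ p)
    (V : C(K, ℝ) → ℝ) (hV : IsVal V) (hc : NCont σ p V) : UCN σ p V := by
  obtain ⟨h1, h2⟩ := specNCS K σ p V hp hc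
  exact nd_pos K σ p hp {f | 0 ≤ f} (fun f hf => hf) test_all V hV (fun f hf => h1 f hf) h2

/-- the counterexample on sets of bounded volume -/
theorem nd_neg (K : Type) [MetricSpace K] [CompactSpace K] [MeasurableSpace K] [BorelSpace K] (σ : Measure K) [IsFiniteMeasure σ] (p : ℕ) (hp : 1 ≤ p)
    (t : K) (ht : σ {t} = 0) (hs : ∀ r : ℝ, 0 < r → 0 < σ (Metric.ball t r)) :
    ∃ V : C(K, ℝ) → ℝ, IsVal V ∧ NCont σ p V ∧ ∃ ε : ℝ, 0 < ε ∧ ∀ δ : ℝ, 0 < δ → ∃ f g : C(K, ℝ), 0 ≤ f ∧ 0 ≤ g ∧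
      ∫ x, f x ^ p ∂σ ≤ 1 ∧ ∫ x, g x ^ p ∂σ ≤ 1 ∧ nk σ p f g < δ ∧ ε ≤ |V f - V g| := by
  obtain ⟨h1, h2⟩ := specNEC K σ p hp
  exact ⟨vc σ p, h1, h2, (1 / 4 : ℝ) ^ p, by positivity, specNED K σ p t hp ht hs⟩

end Pool.Agent.Lib.MP5bcdfb.ND
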